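import Mathlib

set_option autoImplicit false

open Filter Topology Complex

namespace Pool.Agent.Results.MP_653b50_an.NoRestrictedLimit

/-- The product of `n` upper half-planes, inside `ℂⁿ`. -/
def U (n : ℕ) : Set (Fin n → ℂ) := {z | ∀ j, 0 < (z j).im}

/-- `u` is multiply harmonic on `U`: for every point of `U` and every index `j`, the function
obtained by freezing all the variables but the `j`-th one is harmonic on the upper half-plane. -/
def MultiplyHarmonic {n : ℕ} (u : (Fin n → ℂ) → ℝ) : Prop :=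
  ∀ z ∈ U n, ∀ j : Fin n,
    InnerProductSpace.HarmonicOnNhd (fun w : ℂ => u (Function.update z j w)) {w : ℂ | 0 < w.im}

/-- The product cone with vertex `x` in `ℝⁿ`. -/
def Cone {n : ℕ} (x : Fin n → ℝ) : Set (Fin n → ℂ) :=
  {z | z ∈ U n ∧ ∀ j, |(z j).re - x j| < (z j).im}

/-- The region of comparable heights. -/
def R (n : ℕ) (c₁ c₂ : ℝ) : Set (Fin n → ℂ) :=
  {z | z ∈ U n ∧ ∀ j k : Fin n, j < k → c₁ ≤ (z j).im / (z k).im ∧ (z j).im / (z k).im ≤ c₂}

/-- `u` has the restricted limit `l` at `x`: it tends to `l` along the product cone at `x`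
intersected with the region of comparable heights. -/
def HasRestrictedLimit {n : ℕ} (c₁ c₂ : ℝ) (u : (Fin n → ℂ) → ℝ) (x : Fin n → ℝ) (l : ℝ) : Prop :=
  Tendsto u (𝓝[Cone x ∩ R n c₁ c₂] (fun j => ((x j : ℝ) : ℂ))) (𝓝 l)

/-- The frequencies `2 ^ (k ^ 2)`. -/
noncomputable def lam (k : ℕ) : ℝ := 2 ^ (k ^ 2)

lemma lam_pos (k : ℕ) : 0 < lam k := by unfold lam; positivity

lemma pow_le_lam (k : ℕ) : (2 : ℝ) ^ k ≤ lam k := by
  unfold lam
  apply pow_le_pow_right₀ (by norm_num)
  nlinarith [Nat.zero_le k, sq_nonneg (k - 1 : ℤ), Nat.le_self_pow (n := 2) (by norm_num) k]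

lemma mul_exp_neg_le (s : ℝ) (hs : 0 < s) : s * Real.exp (-s) ≤ 2 / s := by
  have h1 : s ^ 2 / 2 ≤ Real.exp s := by
    have := Real.quadratic_le_exp_of_nonneg hs.le
    nlinarith
  rw [Real.exp_neg, ← div_eq_mul_inv, div_le_div_iff₀ (Real.exp_pos s) hs]
  nlinarith

lemma mul_exp_neg_le' (s : ℝ) (hs : 0 < s) : s * Real.exp (-s) ≤ s := by
  have : Real.exp (-s) ≤ 1 := by
    rw [Real.exp_le_one_iff]; linarith
  nlinarith

/-- The lacunary holomorphic function on the upper half-plane. -/
noncomputable def H (w : ℂ) : ℂ := ∑' k : ℕ, (lam k : ℂ) * Complex.exp (Complex.I * lam k * w)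

lemma norm_term (k : ℕ) (w : ℂ) :
    ‖(lam k : ℂ) * Complex.exp (Complex.I * lam k * w)‖ = lam k * Real.exp (-(lam k * w.im)) := by
  rw [norm_mul, Complex.norm_exp, Complex.norm_real, Real.norm_eq_abs, abs_of_pos (lam_pos k)]
  congr 2
  simp

lemma re_term (k : ℕ) (w : ℂ) :
    ((lam k : ℂ) * Complex.exp (Complex.I * lam k * w)).re =
      lam k * (Real.exp (-(lam k * w.im)) * Real.cos (lam k * w.re)) := by
  rw [Complex.re_ofReal_mul, Complex.exp_re]
  congr 3 <;> simp

lemma term_bound (k : ℕ) (y : ℝ) (hy : 0 < y) :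
    lam k * Real.exp (-(lam k * y)) ≤ (2 / y ^ 2) * (1 / 2) ^ k := by
  have h1 := mul_exp_neg_le (lam k * y) (mul_pos (lam_pos k) hy)
  have h2 : lam k * Real.exp (-(lam k * y)) ≤ 2 / (lam k * y) / y := by
    rw [le_div_iff₀ hy]
    calc lam k * Real.exp (-(lam k * y)) * y = lam k * y * Real.exp (-(lam k * y)) := by ring
      _ ≤ _ := h1
  refine h2.trans ?_
  have h3 : 2 / (lam k * y) / y = (2 / y ^ 2) * (1 / lam k) := by
    have := (lam_pos k).ne'
    field_simp
  rw [h3]
  apply mul_le_mul_of_nonneg_left _ (by positivity)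
  rw [one_div_pow]
  exact one_div_le_one_div_of_le (by positivity) (pow_le_lam k)

lemma summable_geo (c : ℝ) : Summable (fun k : ℕ => c * (1 / 2 : ℝ) ^ k) :=
  (summable_geometric_of_lt_one (by norm_num) (by norm_num)).mul_left c

lemma summable_norm (w : ℂ) (hw : 0 < w.im) :
    Summable (fun k : ℕ => ‖(lam k : ℂ) * Complex.exp (Complex.I * lam k * w)‖) := by
  refine Summable.of_nonneg_of_le (fun k => norm_nonneg _) (fun k => ?_)
    (summable_geo (2 / w.im ^ 2))
  rw [norm_term]
  exact term_bound k w.im hw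

lemma H_differentiableOn : DifferentiableOn ℂ H {w : ℂ | 0 < w.im} := by
  intro w hw
  have hw' : 0 < w.im := hw
  have hopen : IsOpen {v : ℂ | w.im / 2 < v.im} := isOpen_lt continuous_const Complex.continuous_im
  have key : DifferentiableOn ℂ H {v : ℂ | w.im / 2 < v.im} := by
    unfold H
    refine differentiableOn_tsum_of_summable_norm (u := fun k => (2 / (w.im / 2) ^ 2) * (1 / 2) ^ k)
      (summable_geo _) (fun k => ?_) hopen (fun k v hv => ?_)
    · fun_prop
    · rw [norm_term]
      have hv' : w.im / 2 < v.im := hv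
      refine le_trans ?_ (term_bound k (w.im / 2) (by linarith))
      apply mul_le_mul_of_nonneg_left _ (lam_pos k).le
      apply Real.exp_le_exp.mpr
      have := lam_pos k
      nlinarith
  have hmem : w ∈ {v : ℂ | w.im / 2 < v.im} := by
    show w.im / 2 < w.im
    linarith
  exact ((key w hmem).differentiableAt (hopen.mem_nhds hmem)).differentiableWithinAt

lemma H_analyticAt (w : ℂ) (hw : 0 < w.im) : AnalyticAt ℂ H w := by
  have hopen : IsOpen {v : ℂ | 0 < v.im} := isOpen_lt continuous_const Complex.continuous_im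
  exact H_differentiableOn.analyticAt (hopen.mem_nhds hw)

lemma H_re (w : ℂ) (hw : 0 < w.im) :
    (H w).re = ∑' k : ℕ, lam k * (Real.exp (-(lam k * w.im)) * Real.cos (lam k * w.re)) := by
  unfold H
  rw [Complex.re_tsum (summable_norm w hw).of_norm]
  exact tsum_congr (fun k => re_term k w)

lemma rangeSum_bound (y : ℝ) (hy : 0 < y) (n : ℕ) :
    ∑ k ∈ Finset.range (n + 1), lam k * Real.exp (-(lam k * y)) * y
      ≤ 2 * (1 - Real.exp (-(lam n * y))) := by
  have key : ∀ a b : ℝ, a ≤ b → (b - a) * Real.exp (-b) ≤ Real.exp (-a) - Real.exp (-b) := by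
    intro a b hab
    have h1 : (b - a) + 1 ≤ Real.exp (b - a) := Real.add_one_le_exp _
    have h2 : Real.exp (-a) = Real.exp (b - a) * Real.exp (-b) := by
      rw [← Real.exp_add]; congr 1; ring
    have h3 := Real.exp_pos (-b)
    rw [h2]
    nlinarith
  induction n with
  | zero =>
    simp only [zero_add, Finset.range_one, Finset.sum_singleton]
    have h := key 0 (lam 0 * y) (mul_nonneg (lam_pos 0).le hy.le)
    rw [neg_zero, Real.exp_zero] at h
    have h3 : 0 ≤ 1 - Real.exp (-(lam 0 * y)) := by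
      have : Real.exp (-(lam 0 * y)) ≤ 1 := by
        rw [Real.exp_le_one_iff]; have := mul_nonneg (lam_pos 0).le hy.le; linarith
      linarith
    nlinarith
  | succ n ih =>
    rw [Finset.sum_range_succ]
    have hl : 2 * lam n ≤ lam (n + 1) := by
      unfold lam
      rw [← pow_succ']
      apply pow_le_pow_right₀ (by norm_num)
      have : (n + 1) ^ 2 = n ^ 2 + 2 * n + 1 := by ring
      omega
    have hln := lam_pos n
    have hle : lam n * y ≤ lam (n + 1) * y := by nlinarith
    have h := key (lam n * y) (lam (n + 1) * y) hle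
    have h4 := Real.exp_pos (-(lam (n + 1) * y))
    have h5 : lam (n + 1) * Real.exp (-(lam (n + 1) * y)) * y
        ≤ 2 * ((lam (n + 1) * y - lam n * y) * Real.exp (-(lam (n + 1) * y))) := by
      have : lam (n + 1) * y ≤ 2 * (lam (n + 1) * y - lam n * y) := by nlinarith
      calc lam (n + 1) * Real.exp (-(lam (n + 1) * y)) * y
          = lam (n + 1) * y * Real.exp (-(lam (n + 1) * y)) := by ring
        _ ≤ (2 * (lam (n + 1) * y - lam n * y)) * Real.exp (-(lam (n + 1) * y)) :=
            mul_le_mul_of_nonneg_right this h4.le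
        _ = _ := by ring
    linarith

lemma H_bound (w : ℂ) (hw : 0 < w.im) : w.im * |(H w).re| ≤ 2 := by
  have hs := summable_norm w hw
  have h1 : |(H w).re| ≤ ∑' k : ℕ, ‖(lam k : ℂ) * Complex.exp (Complex.I * lam k * w)‖ := by
    refine (Complex.abs_re_le_norm _).trans ?_
    unfold H
    exact norm_tsum_le_tsum_norm hs
  have h2 : (∑' k : ℕ, ‖(lam k : ℂ) * Complex.exp (Complex.I * lam k * w)‖) * w.im ≤ 2 := by
    rw [← tsum_mul_right]
    refine Real.tsum_le_of_sum_range_le (fun k => by positivity) (fun n => ?_)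
    rcases n with _ | n
    · simp
    · have := rangeSum_bound w.im hw n
      simp_rw [norm_term]
      refine this.trans ?_
      have := Real.exp_pos (-(lam n * w.im))
      linarith
  nlinarith

/-- At height `1 / lam m` the function is essentially its `m`-th term. -/
lemma H_approx (m : ℕ) (w : ℂ) (hw : w.im = 1 / lam m) :
    |w.im * (H w).re - Real.exp (-1) * Real.cos (lam m * w.re)| ≤ 4 * (1 / 2) ^ m := by
  have hlm := lam_pos m
  have hwpos : 0 < w.im := by rw [hw]; positivity
  have hs := summable_norm w hwpos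
  set f : ℕ → ℝ := fun k => w.im * (lam k * (Real.exp (-(lam k * w.im)) * Real.cos (lam k * w.re)))
    with hf
  have hfs : Summable f := by
    apply Summable.mul_left
    refine Summable.of_norm_bounded hs (fun k => ?_)
    rw [← re_term]
    exact (Complex.abs_re_le_norm _)
  have h1 : w.im * (H w).re = ∑' k, f k := by
    rw [H_re w hwpos, ← tsum_mul_left]
  have h2 : f m = Real.exp (-1) * Real.cos (lam m * w.re) := by
    simp only [hf]
    have : lam m * w.im = 1 := by rw [hw]; field_simp
    rw [this, hw]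
    field_simp
  rw [h1, hfs.tsum_eq_add_tsum_ite m, h2]
  have h3 : Real.exp (-1) * Real.cos (lam m * w.re) + (∑' k, if k = m then 0 else f k)
      - Real.exp (-1) * Real.cos (lam m * w.re) = ∑' k, if k = m then 0 else f k := by ring
  rw [h3, ← Real.norm_eq_abs]
  have hgeo : HasSum (fun k : ℕ => (2 * (1 / 2 : ℝ) ^ m) * (1 / 2) ^ k) (4 * (1 / 2) ^ m) := by
    have h8 := (hasSum_geometric_of_lt_one (r := (1 / 2 : ℝ)) (by norm_num) (by norm_num)).mul_left
      (2 * (1 / 2 : ℝ) ^ m)
    have h9 : 2 * (1 / 2 : ℝ) ^ m * (1 - 1 / 2)⁻¹ = 4 * (1 / 2) ^ m := by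
      rw [show ((1 : ℝ) - 1 / 2)⁻¹ = 2 by norm_num]; ring
    rw [h9] at h8
    exact h8
  refine tsum_of_norm_bounded hgeo (fun k => ?_)
  by_cases hk : k = m
  · simp only [hk, if_true, norm_zero]
    positivity
  simp only [hk, if_false]
  -- estimate of the `k`-th term
  have hlk := lam_pos k
  have hsk : lam k * w.im = lam k / lam m := by rw [hw]; ring
  have hskpos : 0 < lam k / lam m := by positivity
  have hb : ‖f k‖ ≤ (lam k / lam m) * Real.exp (-(lam k / lam m)) := by
    simp only [hf]
    rw [hsk]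
    have : w.im * (lam k * (Real.exp (-(lam k / lam m)) * Real.cos (lam k * w.re)))
        = (lam k * w.im) * Real.exp (-(lam k / lam m)) * Real.cos (lam k * w.re) := by ring
    rw [this, hsk, norm_mul, Real.norm_eq_abs, Real.norm_eq_abs,
      abs_of_pos (mul_pos hskpos (Real.exp_pos _))]
    have hc := Real.abs_cos_le_one (lam k * w.re)
    have := mul_pos hskpos (Real.exp_pos (-(lam k / lam m)))
    nlinarith
  refine hb.trans ?_
  rcases lt_or_gt_of_ne hk with hlt | hgt
  · -- `k < m`
    refine (mul_exp_neg_le' _ hskpos).trans ?_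
    have : lam k / lam m ≤ (1 / 2) ^ m * (1 / 2) ^ k := by
      rw [← pow_add, one_div_pow, div_le_div_iff₀ hlm (by positivity)]
      unfold lam
      rw [← pow_add, one_mul]
      apply pow_le_pow_right₀ (by norm_num)
      nlinarith
    have h0 : (0:ℝ) < (1 / 2) ^ m * (1 / 2) ^ k := by positivity
    nlinarith
  · -- `m < k`
    refine (mul_exp_neg_le _ hskpos).trans ?_
    have : lam m / lam k ≤ (1 / 2) ^ m * (1 / 2) ^ k := by
      rw [← pow_add, one_div_pow, div_le_div_iff₀ hlk (by positivity)]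
      unfold lam
      rw [← pow_add, one_mul]
      apply pow_le_pow_right₀ (by norm_num)
      nlinarith
    have h6 : 2 / (lam k / lam m) = 2 * (lam m / lam k) := by
      field_simp
    rw [h6]
    nlinarith

/-- The multiply harmonic function. -/
noncomputable def ufun {n : ℕ} (i₀ i₁ : Fin n) (z : Fin n → ℂ) : ℝ := (z i₀).im * (H (z i₁)).re

lemma ufun_contDiffOn {n : ℕ} (i₀ i₁ : Fin n) : ContDiffOn ℝ (⊤ : ℕ∞) (ufun i₀ i₁) (U n) := by
  intro z hz
  have h1 : ContDiffAt ℝ (⊤ : ℕ∞) (fun z : Fin n → ℂ => (z i₀).im) z := by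
    have : ContDiff ℝ (⊤ : ℕ∞) (fun z : Fin n → ℂ => Complex.imCLM (z i₀)) := by fun_prop
    exact this.contDiffAt
  have h2 : ContDiffAt ℝ (⊤ : ℕ∞) (fun z : Fin n → ℂ => (H (z i₁)).re) z := by
    have hH : ContDiffAt ℝ (⊤ : ℕ∞) H (z i₁) :=
      ((H_analyticAt (z i₁) (hz i₁)).contDiffAt (n := ((⊤ : ℕ∞) : WithTop ℕ∞))).restrict_scalars ℝ
    have hp : ContDiffAt ℝ (⊤ : ℕ∞) (fun z : Fin n → ℂ => z i₁) z := by fun_prop
    have h3 : ContDiffAt ℝ (⊤ : ℕ∞) (H ∘ fun z : Fin n → ℂ => z i₁) z :=
      ContDiffAt.comp z (g := H) (f := fun z : Fin n → ℂ => z i₁) hH hp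
    exact ContDiffAt.comp z (g := Complex.reCLM) (f := H ∘ fun z : Fin n → ℂ => z i₁)
      Complex.reCLM.contDiff.contDiffAt h3
  exact (h1.mul h2).contDiffWithinAt

lemma ufun_multiplyHarmonic {n : ℕ} (i₀ i₁ : Fin n) (h01 : i₀ ≠ i₁) :
    MultiplyHarmonic (ufun i₀ i₁) := by
  intro z hz j w hw
  by_cases hj1 : j = i₁
  · subst hj1
    have : (fun w : ℂ => ufun i₀ j (Function.update z j w))
        = (z i₀).im • (fun w : ℂ => (H w).re) := by
      funext w
      simp [ufun, Function.update_of_ne h01]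
    rw [this]
    exact InnerProductSpace.HarmonicAt.const_smul (AnalyticAt.harmonicAt_re (H_analyticAt w hw))
  by_cases hj0 : j = i₀
  · subst hj0
    have : (fun w : ℂ => ufun j i₁ (Function.update z j w))
        = (H (z i₁)).re • (fun w : ℂ => w.im) := by
      funext w
      simp [ufun, Function.update_of_ne h01.symm, mul_comm]
    rw [this]
    exact InnerProductSpace.HarmonicAt.const_smul (AnalyticAt.harmonicAt_im (f := id) analyticAt_id)
  · have : (fun w : ℂ => ufun i₀ i₁ (Function.update z j w))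
        = fun _ => ufun i₀ i₁ z := by
      funext w
      simp [ufun, Function.update_of_ne (Ne.symm hj0), Function.update_of_ne (Ne.symm hj1)]
    rw [this]
    exact InnerProductSpace.harmonicAt_const _

/-- The approach points used to see the oscillation. -/
noncomputable def pt {n : ℕ} (i₁ : Fin n) (ζ : Fin n → ℂ) (x : Fin n → ℝ) (s : ℝ) (m : ℕ) :
    Fin n → ℂ :=
  fun j => ⟨x j + (if j = i₁ then s / lam m else 0), (ζ j).im / ((ζ i₁).im * lam m)⟩

lemma tendsto_inv_lam : Tendsto (fun m => 1 / lam m) atTop (𝓝 0) := by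
  refine squeeze_zero (fun m => by have := lam_pos m; positivity) (g := fun m => (1 / 2 : ℝ) ^ m)
    (fun m => ?_) (tendsto_pow_atTop_nhds_zero_of_lt_one (by norm_num) (by norm_num))
  rw [one_div_pow]
  exact one_div_le_one_div_of_le (by positivity) (pow_le_lam m)

lemma pt_tendsto {n : ℕ} (i₁ : Fin n) (c₁ c₂ : ℝ) (ζ : Fin n → ℂ) (hζ : ζ ∈ R n c₁ c₂)
    (x : Fin n → ℝ) (s : ℝ) (hs : |s| < 1) :
    Tendsto (pt i₁ ζ x s) atTop (𝓝[Cone x ∩ R n c₁ c₂] (fun j => ((x j : ℝ) : ℂ))) := by
  have hU : ∀ j, 0 < (ζ j).im := hζ.1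
  refine tendsto_nhdsWithin_iff.mpr ⟨?_, Eventually.of_forall (fun m => ?_)⟩
  · rw [tendsto_pi_nhds]
    intro j
    have hinv := tendsto_inv_lam
    have h1 : Tendsto (fun m => (x j + (if j = i₁ then s / lam m else 0) : ℝ)) atTop (𝓝 (x j)) := by
      by_cases hj : j = i₁
      · simp only [hj, if_true]
        have : Tendsto (fun m => x i₁ + s * (1 / lam m)) atTop (𝓝 (x i₁ + s * 0)) :=
          (hinv.const_mul s).const_add _
        simpa [div_eq_mul_inv] using this
      · simp [hj]
    have h2 : Tendsto (fun m => ((ζ j).im / ((ζ i₁).im * lam m) : ℝ)) atTop (𝓝 0) := by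
      have : Tendsto (fun m => ((ζ j).im / (ζ i₁).im) * (1 / lam m)) atTop
          (𝓝 (((ζ j).im / (ζ i₁).im) * 0)) := hinv.const_mul _
      rw [mul_zero] at this
      refine this.congr (fun m => ?_)
      have := (lam_pos m).ne'
      have := (hU i₁).ne'
      field_simp
    have h3 : Tendsto (fun m => ((x j + (if j = i₁ then s / lam m else 0) : ℝ) : ℂ) +
        (((ζ j).im / ((ζ i₁).im * lam m) : ℝ) : ℂ) * Complex.I) atTop
        (𝓝 (((x j : ℝ) : ℂ) + ((0 : ℝ) : ℂ) * Complex.I)) :=
      ((Complex.continuous_ofReal.tendsto _).comp h1).add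
        (((Complex.continuous_ofReal.tendsto _).comp h2).mul_const _)
    have h4 : ((x j : ℝ) : ℂ) + ((0 : ℝ) : ℂ) * Complex.I = ((x j : ℝ) : ℂ) := by simp
    rw [h4] at h3
    refine h3.congr (fun m => ?_)
    apply Complex.ext
    · simp only [pt, Complex.add_re, Complex.ofReal_re, Complex.re_ofReal_mul, Complex.I_re,
        mul_zero, add_zero]
    · simp only [pt, Complex.add_im, Complex.ofReal_im, Complex.im_ofReal_mul, Complex.I_im,
        mul_one, zero_add]
  · have hlm := lam_pos m
    have hcu : pt i₁ ζ x s m ∈ U n := by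
      intro j
      simp only [pt]
      have := hU j
      have := hU i₁
      positivity
    refine ⟨⟨hcu, fun j => ?_⟩, ⟨hcu, fun j k hjk => ?_⟩⟩
    · simp only [pt]
      by_cases hj : j = i₁
      · subst hj
        simp only [if_true]
        have h5 : x j + s / lam m - x j = s / lam m := by ring
        rw [h5, abs_div, abs_of_pos hlm]
        have h6 : (ζ j).im / ((ζ j).im * lam m) = 1 / lam m := by
          have := (hU j).ne'
          field_simp
        rw [h6]
        exact div_lt_div_of_pos_right hs hlm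
      · simp only [hj, if_false, add_zero, sub_self, abs_zero]
        have := hU j
        have := hU i₁
        positivity
    · have h := hζ.2 j k hjk
      have h7 : (pt i₁ ζ x s m j).im / (pt i₁ ζ x s m k).im = (ζ j).im / (ζ k).im := by
        simp only [pt]
        have := (hU i₁).ne'
        have := (hU k).ne'
        field_simp
      rw [h7]
      exact h

/-- For every `n ≥ 2` there is one multiply harmonic function on the product of `n` upper
half-planes which is bounded on every region of comparable heights and has no restricted limit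
at any boundary point, for any choice of the constants for which the region is nonempty. -/
theorem result : ∀ n : ℕ, 2 ≤ n → ∃ u : (Fin n → ℂ) → ℝ,
    MultiplyHarmonic u ∧ ContDiffOn ℝ (⊤ : ℕ∞) u (U n) ∧
    ∀ c₁ c₂ : ℝ, 0 < c₁ → c₁ ≤ c₂ →
      (∃ C : ℝ, ∀ z ∈ R n c₁ c₂, |u z| ≤ C) ∧
      ((R n c₁ c₂).Nonempty → ∀ x : Fin n → ℝ, ¬ ∃ l : ℝ, HasRestrictedLimit c₁ c₂ u x l) := by
  intro n hn
  set i₀ : Fin n := ⟨0, by omega⟩ with hi₀
  set i₁ : Fin n := ⟨1, by omega⟩ with hi₁
  have h01 : i₀ ≠ i₁ := by simp [hi₀, hi₁]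
  have hlt : i₀ < i₁ := by simp [hi₀, hi₁]
  refine ⟨ufun i₀ i₁, ufun_multiplyHarmonic i₀ i₁ h01, ufun_contDiffOn i₀ i₁,
    fun c₁ c₂ hc₁ hc₂ => ⟨⟨c₂ * 2, fun z hz => ?_⟩, ?_⟩⟩
  · -- boundedness
    have hz0 : 0 < (z i₀).im := hz.1 i₀
    have hz1 : 0 < (z i₁).im := hz.1 i₁
    have hr := (hz.2 i₀ i₁ hlt).2
    have hb := H_bound (z i₁) hz1
    have : |ufun i₀ i₁ z| = ((z i₀).im / (z i₁).im) * ((z i₁).im * |(H (z i₁)).re|) := by
      unfold ufun
      rw [abs_mul, abs_of_pos hz0]
      field_simp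
    rw [this]
    have h0 : 0 ≤ (z i₁).im * |(H (z i₁)).re| := by positivity
    have hc : 0 < c₂ := lt_of_lt_of_le hc₁ hc₂
    exact mul_le_mul hr hb h0 hc.le
  · -- no restricted limit
    rintro ⟨ζ, hζ⟩ x ⟨l, hl⟩
    have hU : ∀ j, 0 < (ζ j).im := hζ.1
    set r : ℝ := (ζ i₀).im / (ζ i₁).im with hr
    have hrpos : 0 < r := div_pos (hU i₀) (hU i₁)
    set θ : ℕ → ℝ := fun m => lam m * x i₁ with hθ
    -- the key limit
    have key : ∀ s : ℝ, |s| < 1 →
        Tendsto (fun m => Real.cos (θ m + s)) atTop (𝓝 (l / r * Real.exp 1)) := by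
      intro s hs
      have h1 : Tendsto (fun m => ufun i₀ i₁ (pt i₁ ζ x s m)) atTop (𝓝 l) :=
        hl.comp (pt_tendsto i₁ c₁ c₂ ζ hζ x s hs)
      have h2 : ∀ m, |ufun i₀ i₁ (pt i₁ ζ x s m) / r - Real.exp (-1) * Real.cos (θ m + s)|
          ≤ 4 * (1 / 2) ^ m := by
        intro m
        have hlm := lam_pos m
        have him : (pt i₁ ζ x s m i₁).im = 1 / lam m := by
          simp only [pt]
          have := (hU i₁).ne'
          field_simp
        have hre : lam m * (pt i₁ ζ x s m i₁).re = θ m + s := by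
          simp only [pt, hθ, if_true]
          field_simp
        have h3 := H_approx m (pt i₁ ζ x s m i₁) him
        rw [hre] at h3
        have h4 : ufun i₀ i₁ (pt i₁ ζ x s m) / r
            = (pt i₁ ζ x s m i₁).im * (H (pt i₁ ζ x s m i₁)).re := by
          have h5 : (pt i₁ ζ x s m i₀).im = r * (pt i₁ ζ x s m i₁).im := by
            rw [him]
            simp only [pt, hr]
            have := (hU i₁).ne'
            field_simp
          unfold ufun
          rw [h5]
          field_simp
        rw [h4]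
        exact h3
      have h3 : Tendsto (fun m => ufun i₀ i₁ (pt i₁ ζ x s m) / r
          - Real.exp (-1) * Real.cos (θ m + s)) atTop (𝓝 0) := by
        refine squeeze_zero_norm (a := fun m => 4 * (1 / 2 : ℝ) ^ m) (fun m => h2 m) ?_
        have := (tendsto_pow_atTop_nhds_zero_of_lt_one (r := (1 / 2 : ℝ)) (by norm_num)
          (by norm_num)).const_mul 4
        simpa using this
      have h4 : Tendsto (fun m => Real.exp (-1) * Real.cos (θ m + s)) atTop (𝓝 (l / r)) := by
        have := (h1.div_const r).sub h3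
        simpa using this
      have h5 := h4.const_mul (Real.exp 1)
      have h6 : ∀ m, Real.exp 1 * (Real.exp (-1) * Real.cos (θ m + s)) = Real.cos (θ m + s) := by
        intro m
        rw [← mul_assoc, ← Real.exp_add]
        simp
      simp_rw [h6] at h5
      rw [mul_comm]
      exact h5
    set L : ℝ := l / r * Real.exp 1 with hL
    have k0 := key 0 (by norm_num)
    have kp := key (1 / 2) (by rw [abs_of_pos] <;> norm_num)
    have km := key (-(1 / 2)) (by rw [abs_neg, abs_of_pos] <;> norm_num)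
    simp only [add_zero] at k0
    -- `cos (θ + 1/2) + cos (θ - 1/2) = 2 cos θ cos (1/2)`
    have e1 : ∀ m, Real.cos (θ m + 1 / 2) + Real.cos (θ m + -(1 / 2))
        = 2 * Real.cos (1 / 2) * Real.cos (θ m) := by
      intro m
      rw [Real.cos_add, Real.cos_add, Real.cos_neg, Real.sin_neg]
      ring
    have e2 : ∀ m, Real.cos (θ m + -(1 / 2)) - Real.cos (θ m + 1 / 2)
        = 2 * Real.sin (1 / 2) * Real.sin (θ m) := by
      intro m
      rw [Real.cos_add, Real.cos_add, Real.cos_neg, Real.sin_neg]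
      ring
    have t1 : Tendsto (fun m => 2 * Real.cos (1 / 2) * Real.cos (θ m)) atTop (𝓝 (L + L)) := by
      have := kp.add km
      simp_rw [e1] at this
      exact this
    have t1' : Tendsto (fun m => 2 * Real.cos (1 / 2) * Real.cos (θ m)) atTop
        (𝓝 (2 * Real.cos (1 / 2) * L)) := k0.const_mul _
    have hLeq : L + L = 2 * Real.cos (1 / 2) * L := tendsto_nhds_unique t1 t1'
    have hcos : Real.cos (1 / 2) < 1 := by
      have := Real.cos_lt_one_div_sqrt_sq_add_one (x := 1 / 2)
        (by linarith [Real.pi_pos]) (by linarith [Real.pi_gt_three]) (by norm_num)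
      refine this.trans ?_
      rw [div_lt_one (by positivity)]
      rw [Real.lt_sqrt (by norm_num)]
      norm_num
    have hL0 : L = 0 := by
      have : L * (1 - Real.cos (1 / 2)) = 0 := by linarith
      rcases mul_eq_zero.mp this with h | h
      · exact h
      · linarith
    have hsin : 0 < Real.sin (1 / 2) :=
      Real.sin_pos_of_pos_of_lt_pi (by norm_num) (by linarith [Real.pi_gt_three])
    have t2 : Tendsto (fun m => 2 * Real.sin (1 / 2) * Real.sin (θ m)) atTop (𝓝 (L - L)) := by
      have := km.sub kp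
      simp_rw [e2] at this
      exact this
    have t3 : Tendsto (fun m => Real.sin (θ m)) atTop (𝓝 0) := by
      have h7 := t2.const_mul ((2 * Real.sin (1 / 2))⁻¹)
      rw [sub_self, mul_zero] at h7
      refine h7.congr (fun m => ?_)
      field_simp
    rw [hL0] at k0
    have t4 : Tendsto (fun m => Real.sin (θ m) ^ 2 + Real.cos (θ m) ^ 2) atTop
        (𝓝 (0 ^ 2 + 0 ^ 2)) := (t3.pow 2).add (k0.pow 2)
    simp only [Real.sin_sq_add_cos_sq] at t4
    have := tendsto_nhds_unique t4 tendsto_const_nhds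
    norm_num at this

end Pool.Agent.Results.MP_653b50_an.NoRestrictedLimit
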